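import Pool.Agent.ATT.Stmts
import Pool.Agent.Helper92_ANR.REV

/-!
# Row RVS of the tank ATT: one reveal (helper92)

The rows LV2, LV0 (ANR) and NET are hypotheses.
-/

set_option autoImplicit false

open scoped BigOperators NNReal

noncomputable section

namespace Pool.Agent.ATT.H92

open Pool.Agent.ATT
open Pool.Agent.ANP (Cfg)
open Pool.Agent.KIL (gam aa nn)

theorem rvs (h2 : ANR.Lv2Stmt) (h0 : ANR.Lv0Stmt) (hnet : NetStmt) : RvsStmt := by
  intro X _ _ A κs g₀ Λ Lc hK kI hH T Qr Go b hSt hb ha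
  obtain ⟨he0, heη, hv, hg₀, ht₁, hdT, -, -, -, -, -⟩ := hH.pos
  have hbQ : b ∈ A.Q := hSt.sub hb
  have hbR : b ∉ A.R := fun h => Finset.disjoint_left.1 hH.dis h hbQ
  obtain ⟨T', hT'⟩ : ∃ T' : Cfg X, T' = T.rv {b} A.val := ⟨_, rfl⟩
  rw [← hT']
  have hV : ∀ x, x ≠ b → T'.V x = T.V x := by
    intro x hx
    rw [hT']
    exact if_neg fun h => hx (Finset.mem_singleton.1 h)
  have hs : ∀ x, x ≠ b → T'.s x = T.s x := by
    intro x hx
    rw [hT']
    exact if_neg fun h => hx (Finset.mem_singleton.1 h)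
  have hVb : T'.V b = A.val b := by
    rw [hT']
    exact if_pos (Finset.mem_singleton_self b)
  have hsb : T'.s b = 0 := by
    rw [hT']
    exact if_pos (Finset.mem_singleton_self b)
  have hmb : T'.mb = T.mb := by rw [hT']; rfl
  have hneR : ∀ x ∈ A.R, x ≠ b := fun x hx h => hbR (h ▸ hx)
  have hal : A.al T' = A.al T := by
    ext x
    simp only [Pa.al, Finset.mem_filter]
    constructor
    · rintro ⟨h1, h3⟩
      exact ⟨h1, by rw [← hs x (hneR x h1)]; exact h3⟩
    · rintro ⟨h1, h3⟩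
      exact ⟨h1, by rw [hs x (hneR x h1)]; exact h3⟩
  have hkd : A.kd T' = A.kd T := by
    ext x
    simp only [Pa.kd, Finset.mem_filter]
    constructor
    · rintro ⟨h1, h3⟩
      exact ⟨h1, by rw [← hs x (hneR x h1)]; exact h3⟩
    · rintro ⟨h1, h3⟩
      exact ⟨h1, by rw [hs x (hneR x h1)]; exact h3⟩
  have halR : ∀ x ∈ A.al T, x ∈ A.R := fun x hx => (Finset.mem_filter.1 hx).1
  have halne : ∀ x ∈ A.al T, x ≠ b := fun x hx => hneR x (halR x hx)
  -- the networks
  have hpT : ∀ x, 0 < T.s x → 0 < (T.mb x).im := by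
    intro x hx
    rw [hSt.mb]
    apply hH.pimb
    by_cases hR : x ∈ A.R
    · rw [(hH.hR x hR).1]
      exact_mod_cast hv
    · by_cases hQ : x ∈ A.Q
      · by_cases hQr : x ∈ Qr
        · rw [← (hSt.rem x hQr).2]
          exact hx
        · rw [(hSt.app x hQ hQr).2] at hx
          exact absurd hx (lt_irrefl _)
      · rw [← (hSt.off x hR hQ).2]
        exact hx
  have hpT' : ∀ x, 0 < T'.s x → 0 < (T'.mb x).im := by
    intro x hx
    rw [hmb]
    apply hpT
    by_cases h : x = b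
    · rw [h, hsb] at hx
      exact absurd hx (lt_irrefl _)
    · rw [← hs x h]
      exact hx
  obtain ⟨hNe, hsym, hward, -⟩ := hnet X A.Hm A.η A.e0 T hH.sym he0 heη hpT
  obtain ⟨hNe', hsym', -, -⟩ := hnet X A.Hm A.η A.e0 T' hH.sym he0 heη hpT'
  have hoff : ANR.Off (hN A.Hm T) (ka A.η A.e0 T) (hN A.Hm T') (ka A.η A.e0 T') {b} := by
    intro x hx
    have hxb : x ≠ b := fun h => hx (Finset.mem_singleton.2 h)
    refine ⟨?_, fun y => ?_⟩
    · unfold ka
      rw [hs x hxb, hmb]
    · unfold hN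
      rw [hV x hxb, hs x hxb, hmb]
  -- the absorption
  obtain ⟨κ, hκ⟩ : ∃ κ : X → ℝ, κ = ka A.η A.e0 T := ⟨_, rfl⟩
  obtain ⟨κ', hκ'⟩ : ∃ κ' : X → ℝ, κ' = ka A.η A.e0 T' := ⟨_, rfl⟩
  obtain ⟨G, hG⟩ : ∃ G : Matrix X X ℂ, G = GT A.Hm A.η A.e0 T := ⟨_, rfl⟩
  obtain ⟨G', hG'⟩ : ∃ G' : Matrix X X ℂ, G' = GT A.Hm A.η A.e0 T' := ⟨_, rfl⟩
  have eG : A.G T = G := hG.symm
  have eG' : A.G T' = G' := hG'.symm
  have ek : A.k T = κ := hκ.symm
  have ek' : A.k T' = κ' := hκ'.symm
  have hκpos : ∀ x, 0 < κ x := by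
    intro x
    rw [hκ]
    exact hNe.pos x
  have hκoff : ∀ x, x ≠ b → κ' x = κ x := by
    intro x hx
    rw [hκ, hκ']
    exact (hoff x fun h => hx (Finset.mem_singleton.1 h)).1
  rw [← hG] at hsym hward
  rw [← hG'] at hsym'
  rw [← hκ] at hward
  obtain ⟨S0, hS0⟩ : ∃ S0 : ℝ, S0 = ∑ z ∈ ({b} : Finset X)ᶜ, κ z * ‖G z b‖ ^ 2 := ⟨_, rfl⟩
  have hS0n : 0 ≤ S0 := by
    rw [hS0]
    exact Finset.sum_nonneg fun z _ => mul_nonneg (hκpos z).le (sq_nonneg _)
  obtain ⟨L, hL⟩ : ∃ L : X → ℝ, ∀ x, L x = ‖G x b‖ ^ 2 / S0 := ⟨_, fun _ => rfl⟩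
  have hL0 : ∀ x, 0 ≤ L x := by
    intro x
    rw [hL]
    exact div_nonneg (sq_nonneg _) hS0n
  have hLev : ∀ x, x ≠ b → ANR.Lev (hN A.Hm T) (ka A.η A.e0 T) {b} x (L x) := by
    intro x hx
    have h := h0 X (hN A.Hm T) (ka A.η A.e0 T) b x hNe hx
    rw [hL x, hS0, hG, hκ]
    exact h
  have hgam : gam κ G b = S0 := by
    rw [hS0]
    unfold gam nn
    rw [← Finset.sdiff_singleton_eq_erase, ← Finset.compl_eq_univ_sdiff]
  have haL : ∀ x, A.a T b x = κ x * L x := by
    intro x
    unfold Pa.a aa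
    rw [eG, ek, hgam, hL x]
    unfold nn
    rw [mul_div_assoc]
  have hL1 : ∀ x, x ≠ b → κ x * L x ≤ 1 := by
    intro x hx
    rw [hL, ← mul_div_assoc]
    apply div_le_one_of_le₀ _ hS0n
    rw [hS0]
    exact Finset.single_le_sum (f := fun z => κ z * ‖G z b‖ ^ 2)
      (fun z _ => mul_nonneg (hκpos z).le (sq_nonneg _))
      (Finset.mem_compl.2 fun h => hx (Finset.mem_singleton.1 h))
  have hL1' : ∀ x, x ≠ b → L x ≤ (κ x)⁻¹ := by
    intro x hx
    rw [← one_div, le_div_iff₀ (hκpos x), mul_comm]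
    exact hL1 x hx
  have hLd : ∀ x ∈ A.al T, L x ≤ A.dT := by
    intro x hx
    have hxR := halR x hx
    have h1 : A.v * g₀ ≤ κ x := by
      rw [hκ]
      have h3 : T.s x ≠ 0 := (Finset.mem_filter.1 hx).2
      unfold ka
      rw [if_neg h3]
      have h4 : T.s x = A.v := by
        rcases hSt.run x hxR with h | h
        · exact absurd h h3
        · exact h.2
      rw [h4, hSt.mb]
      have h5 := mul_le_mul_of_nonneg_left (hH.hR x hxR).2.1 (NNReal.coe_nonneg A.v)
      linarith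
    have h3 : κ x * L x ≤ 2 * A.t₁ := by
      rw [← haL]
      exact ha x hx
    have h4 : A.dT * (A.v * g₀) ≤ A.dT * κ x := mul_le_mul_of_nonneg_left h1 hdT
    have h5 : κ x * L x ≤ κ x * A.dT := by
      have := hH.dt
      linarith [mul_comm A.dT (κ x)]
    exact le_of_mul_le_mul_left h5 (hκpos x)
  -- the change of the entries
  have hLv2 : ∀ x y, x ≠ b → y ≠ b → ‖G x y - G' x y‖ ^ 2 ≤ 4 * L x * L y ∧
      ∑ z ∈ ({b} : Finset X)ᶜ, κ z * ‖G z y - G' z y‖ ^ 2 ≤ 4 * L y := by
    intro x y hx hy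
    have h := h2 X (hN A.Hm T) (hN A.Hm T') (ka A.η A.e0 T) (ka A.η A.e0 T') {b} x y (L x) (L y)
      hNe hNe' hoff (fun h => hx (Finset.mem_singleton.1 h))
      (fun h => hy (Finset.mem_singleton.1 h)) (hL0 x) (hL0 y) (hLev x hx) (hLev y hy)
    refine ⟨?_, ?_⟩
    · rw [hG, hG']
      exact h.1
    · rw [hG, hG', hκ]
      exact h.2.1
  have hent : ∀ x y, x ≠ b → y ≠ b → ‖G' x y - G x y‖ ≤ 2 * Real.sqrt (L x * L y) := by
    intro x y hx hy
    rw [norm_sub_rev]
    have h6 : (2 * Real.sqrt (L x * L y)) ^ 2 = 4 * L x * L y := by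
      rw [mul_pow, Real.sq_sqrt (mul_nonneg (hL0 x) (hL0 y))]
      ring
    exact (abs_le_of_sq_le_sq' (by rw [h6]; exact (hLv2 x y hx hy).1) (by positivity)).2
  -- the quotients
  have hQr : ∀ x, x ≠ b → (x ∈ Qr.erase b ↔ x ∈ Qr) := by
    intro x hx
    rw [Finset.mem_erase]
    exact ⟨fun h => h.2, fun h => ⟨hx, h⟩⟩
  have hcard : ((A.Q \ Qr.erase b).card : ℝ) = (A.Q \ Qr).card + 1 := by
    have h : A.Q \ Qr.erase b = insert b (A.Q \ Qr) := by
      ext x
      simp only [Finset.mem_sdiff, Finset.mem_erase, Finset.mem_insert, not_and]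
      constructor
      · rintro ⟨h1, h3⟩
        by_cases hx : x = b
        · exact Or.inl hx
        · exact Or.inr ⟨h1, h3 hx⟩
      · rintro (h | h)
        · subst h
          exact ⟨hbQ, fun h => absurd rfl h⟩
        · exact ⟨h.1, fun _ => h.2⟩
    rw [h, Finset.card_insert_of_notMem]
    · push_cast
      ring
    · intro h
      exact (Finset.mem_sdiff.1 h).2 hb
  have hκ0 : ∀ x ∈ Qr, A.k A.T₀ x = κ x := by
    intro x hx
    rw [← ek]
    unfold Pa.k ka
    rw [(hSt.rem x hx).2, hSt.mb]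
  have hLx : ∀ x ∈ A.al T ∪ Qr.erase b, x ≠ b ∧ L x ≤ if x ∈ Qr then (A.k A.T₀ x)⁻¹ else A.dT := by
    intro x hx
    rcases Finset.mem_union.1 hx with h | h
    · refine ⟨halne x h, ?_⟩
      rw [if_neg]
      · exact hLd x h
      · intro h3
        exact Finset.disjoint_left.1 hH.dis (halR x h) (hSt.sub h3)
    · obtain ⟨h3, h4⟩ := Finset.mem_erase.1 h
      refine ⟨h3, ?_⟩
      rw [if_pos h4, hκ0 x h4]
      exact hL1' x h3
  have hstate : A.St T' (Qr.erase b) (Go + (A.G T' - A.G T)) := by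
    refine ⟨hmb.trans hSt.mb, ?_, ?_, fun x hx => hSt.sub (Finset.mem_of_mem_erase hx), ?_, ?_,
      ?_, ?_, ?_, ?_, ?_⟩
    · intro x hR hQ
      have hx : x ≠ b := fun h => hQ (h ▸ hbQ)
      rw [hV x hx, hs x hx]
      exact hSt.off x hR hQ
    · intro x hR
      have hx : x ≠ b := hneR x hR
      rw [hV x hx, hs x hx]
      exact hSt.run x hR
    · intro x hx
      obtain ⟨h3, h4⟩ := Finset.mem_erase.1 hx
      rw [hV x h3, hs x h3]
      exact hSt.rem x h4
    · intro x hQ hx
      by_cases h : x = b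
      · rw [h]
        exact ⟨hVb, hsb⟩
      · rw [hV x h, hs x h]
        exact hSt.app x hQ fun h3 => hx ((hQr x h).2 h3)
    · rw [hkd]
      exact hSt.num
    · rw [hkd]
      exact hSt.near
    · rw [hal]
      intro x hx y hy
      have hyR := halR y hy
      obtain ⟨hxb, hLx'⟩ := hLx x hx
      have hyb := halne y hy
      have hx' : x ∈ A.al T ∪ Qr := by
        rcases Finset.mem_union.1 hx with h | h
        · exact Finset.mem_union_left _ h
        · exact Finset.mem_union_right _ (Finset.mem_of_mem_erase h)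
      have h3 := hSt.go x hx' y hy
      rw [hcard]
      have hif : (if x ∈ Qr.erase b then (A.k A.T₀ x)⁻¹ else A.dT) =
          if x ∈ Qr then (A.k A.T₀ x)⁻¹ else A.dT := by
        by_cases h : x ∈ Qr
        · rw [if_pos h, if_pos ((hQr x hxb).2 h)]
        · rw [if_neg h, if_neg fun h4 => h ((hQr x hxb).1 h4)]
      rw [hif]
      have h4 : ‖(Go + (A.G T' - A.G T)) x y - A.G A.T₀ x y‖ ≤
          ‖Go x y - A.G A.T₀ x y‖ + ‖G' x y - G x y‖ := by
        have h5 : (Go + (A.G T' - A.G T)) x y - A.G A.T₀ x y =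
            (Go x y - A.G A.T₀ x y) + (G' x y - G x y) := by
          rw [eG, eG']
          simp only [Matrix.add_apply, Matrix.sub_apply]
          ring
        rw [h5]
        exact norm_add_le _ _
      have h5 : Real.sqrt (L x * L y) ≤
          Real.sqrt (A.dT * if x ∈ Qr then (A.k A.T₀ x)⁻¹ else A.dT) := by
        apply Real.sqrt_le_sqrt
        rw [mul_comm (L x)]
        exact mul_le_mul (hLd y hy) hLx' (hL0 x) hdT
      have h6 := hent x y hxb hyb
      nlinarith [h3, h4, h5, h6]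
    · rw [hal, hcard]
      intro x hx
      have hxb := halne x hx
      have h3 := hSt.gm x hx
      have h4 := ANR.H92.mink (A.al T) κ (fun y _ => (hκpos y).le)
        (fun y => Go x y - A.G A.T₀ x y) (fun y => G' x y - G x y)
      have h5 : mx (A.k T') (A.al T) (Go + (A.G T' - A.G T)) (A.G A.T₀) x =
          ∑ y ∈ A.al T, κ y * ‖(Go x y - A.G A.T₀ x y) + (G' x y - G x y)‖ ^ 2 := by
        unfold mx
        refine Finset.sum_congr rfl fun y hy => ?_
        rw [ek', hκoff y (halne y hy)]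
        congr 3
        rw [eG, eG']
        simp only [Matrix.add_apply, Matrix.sub_apply]
        ring
      have h6 : mx (A.k T) (A.al T) Go (A.G A.T₀) x =
          ∑ y ∈ A.al T, κ y * ‖Go x y - A.G A.T₀ x y‖ ^ 2 := by
        unfold mx
        rw [ek]
      rw [h6] at h3
      rw [h5]
      have h7 : Real.sqrt (∑ y ∈ A.al T, κ y * ‖G' x y - G x y‖ ^ 2) ≤
          2 * Real.sqrt A.dT := by
        have h8 : ∑ y ∈ A.al T, κ y * ‖G' x y - G x y‖ ^ 2 ≤ 4 * L x := by
          refine le_trans ?_ (hLv2 x x hxb hxb).2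
          refine le_trans (le_of_eq (Finset.sum_congr rfl fun y _ => ?_))
            (Finset.sum_le_sum_of_subset_of_nonneg
              (f := fun z => κ z * ‖G z x - G' z x‖ ^ 2)
              (s := A.al T) (t := ({b} : Finset X)ᶜ)
              (fun y hy => Finset.mem_compl.2 fun h => halne y hy (Finset.mem_singleton.1 h))
              fun z _ _ => mul_nonneg (hκpos z).le (sq_nonneg _))
          rw [hsym y x, hsym' y x, norm_sub_rev]
        have h9 : Real.sqrt (4 * L x) = 2 * Real.sqrt (L x) := by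
          rw [Real.sqrt_mul (by norm_num : (0 : ℝ) ≤ 4),
            show Real.sqrt 4 = 2 by
              rw [show (4 : ℝ) = 2 ^ 2 by norm_num]
              exact Real.sqrt_sq (by norm_num)]
        calc Real.sqrt (∑ y ∈ A.al T, κ y * ‖G' x y - G x y‖ ^ 2) ≤ Real.sqrt (4 * L x) :=
              Real.sqrt_le_sqrt h8
          _ = 2 * Real.sqrt (L x) := h9
          _ ≤ 2 * Real.sqrt A.dT := by
              have := Real.sqrt_le_sqrt (hLd x hx)
              linarith
      nlinarith [h3, h4, h7]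
    · rw [hal, hcard]
      have h3 := hSt.gM
      have h4 := ANR.H92.mink (A.al T ×ˢ A.al T) (fun q : X × X => κ q.1 * κ q.2)
        (fun q _ => mul_nonneg (hκpos q.1).le (hκpos q.2).le)
        (fun q => Go q.1 q.2 - A.G A.T₀ q.1 q.2) (fun q => G' q.1 q.2 - G q.1 q.2)
      have hMM : ∀ (F : X → X → ℝ),
          ∑ x ∈ A.al T, κ x * ∑ y ∈ A.al T, κ y * F x y =
            ∑ q ∈ A.al T ×ˢ A.al T, κ q.1 * κ q.2 * F q.1 q.2 := by
        intro F
        rw [Finset.sum_product]
        refine Finset.sum_congr rfl fun x _ => ?_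
        rw [Finset.mul_sum]
        exact Finset.sum_congr rfl fun y _ => by ring
      have h5 : MM (A.k T') (A.al T) (Go + (A.G T' - A.G T)) (A.G A.T₀) =
          ∑ q ∈ A.al T ×ˢ A.al T, κ q.1 * κ q.2 *
            ‖(Go q.1 q.2 - A.G A.T₀ q.1 q.2) + (G' q.1 q.2 - G q.1 q.2)‖ ^ 2 := by
        rw [← hMM fun x y => ‖(Go x y - A.G A.T₀ x y) + (G' x y - G x y)‖ ^ 2]
        unfold MM mx
        refine Finset.sum_congr rfl fun x hx => ?_
        rw [ek', hκoff x (halne x hx)]
        congr 1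
        refine Finset.sum_congr rfl fun y hy => ?_
        rw [hκoff y (halne y hy)]
        congr 3
        rw [eG, eG']
        simp only [Matrix.add_apply, Matrix.sub_apply]
        ring
      have h6 : MM (A.k T) (A.al T) Go (A.G A.T₀) =
          ∑ q ∈ A.al T ×ˢ A.al T, κ q.1 * κ q.2 * ‖Go q.1 q.2 - A.G A.T₀ q.1 q.2‖ ^ 2 := by
        rw [← hMM fun x y => ‖Go x y - A.G A.T₀ x y‖ ^ 2]
        unfold MM mx
        rw [ek]
      have h7 : Real.sqrt (∑ q ∈ A.al T ×ˢ A.al T, κ q.1 * κ q.2 *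
          ‖G' q.1 q.2 - G q.1 q.2‖ ^ 2) ≤ 2 := by
        have hL1s : ∑ x ∈ A.al T, κ x * L x ≤ 1 := by
          have h8 : ∑ x ∈ A.al T, κ x * L x ≤ ∑ x ∈ ({b} : Finset X)ᶜ, κ x * L x :=
            Finset.sum_le_sum_of_subset_of_nonneg
              (fun y hy => Finset.mem_compl.2 fun h => halne y hy (Finset.mem_singleton.1 h))
              fun z _ _ => mul_nonneg (hκpos z).le (hL0 z)
          have h9 : ∑ x ∈ ({b} : Finset X)ᶜ, κ x * L x = S0 / S0 := by
            nth_rw 1 [hS0]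
            rw [Finset.sum_div]
            exact Finset.sum_congr rfl fun x _ => by rw [hL, mul_div_assoc]
          rw [h9] at h8
          exact h8.trans (div_self_le_one S0)
        have h8 : ∑ q ∈ A.al T ×ˢ A.al T, κ q.1 * κ q.2 * ‖G' q.1 q.2 - G q.1 q.2‖ ^ 2 ≤
            4 := by
          rw [← hMM fun x y => ‖G' x y - G x y‖ ^ 2]
          calc ∑ x ∈ A.al T, κ x * ∑ y ∈ A.al T, κ y * ‖G' x y - G x y‖ ^ 2 ≤
                ∑ x ∈ A.al T, κ x * (4 * L x) := by
                refine Finset.sum_le_sum fun x hx => ?_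
                refine mul_le_mul_of_nonneg_left ?_ (hκpos x).le
                refine le_trans ?_ (hLv2 x x (halne x hx) (halne x hx)).2
                refine le_trans (le_of_eq (Finset.sum_congr rfl fun y _ => ?_))
                  (Finset.sum_le_sum_of_subset_of_nonneg
                    (f := fun z => κ z * ‖G z x - G' z x‖ ^ 2)
                    (s := A.al T) (t := ({b} : Finset X)ᶜ)
                    (fun y hy => Finset.mem_compl.2
                      fun h => halne y hy (Finset.mem_singleton.1 h))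
                    fun z _ _ => mul_nonneg (hκpos z).le (sq_nonneg _))
                rw [hsym y x, hsym' y x, norm_sub_rev]
            _ = 4 * ∑ x ∈ A.al T, κ x * L x := by
                rw [Finset.mul_sum]
                exact Finset.sum_congr rfl fun x _ => by ring
            _ ≤ 4 := by linarith
        calc Real.sqrt (∑ q ∈ A.al T ×ˢ A.al T, κ q.1 * κ q.2 *
              ‖G' q.1 q.2 - G q.1 q.2‖ ^ 2) ≤ Real.sqrt 4 := Real.sqrt_le_sqrt h8
          _ = 2 := by
              rw [show (4 : ℝ) = 2 ^ 2 by norm_num]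
              exact Real.sqrt_sq (by norm_num)
      rw [h6] at h3
      rw [h5]
      linarith [h3, h4, h7]
  refine ⟨hstate, ?_, hal, hkd⟩
  have hdiff : ∀ x y, A.G T' x y - (Go + (A.G T' - A.G T)) x y = A.G T x y - Go x y := by
    intro x y
    simp only [Matrix.add_apply, Matrix.sub_apply]
    ring
  have hbud : ∀ x y, A.bud T' x y = A.bud T x y := by
    intro x y
    unfold Pa.bud
    rw [hkd]
  have hbum : ∀ x, A.bum T' x = A.bum T x := by
    intro x
    unfold Pa.bum
    rw [hkd]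
  have hpe : ∀ (l B : ℝ) (z : ℂ), 0 ≤ pe l B z := by
    intro l B z
    unfold pe
    have h3 := Real.cosh_pos (l * z.re)
    have h4 := Real.cosh_pos (l * z.im)
    have h5 := Real.exp_pos B
    positivity
  have hbuM : A.buM T' = A.buM T := by
    unfold Pa.buM
    rw [hkd]
  unfold Pa.U
  rw [hal]
  refine add_le_add (add_le_add ?_ ?_) (le_of_eq ?_)
  · simp only [hdiff, hbud]
    apply Finset.sum_le_sum_of_subset_of_nonneg
    · apply Finset.union_subset_union (Finset.Subset.refl _) (Finset.erase_subset _ _)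
    · intro x _ _
      exact Finset.sum_nonneg fun y _ => hpe _ _ _
  · apply le_of_eq
    refine Finset.sum_congr rfl fun x hx => ?_
    rw [hbum]
    congr 4
    unfold mx
    refine Finset.sum_congr rfl fun y hy => ?_
    rw [hdiff, ek', ek, hκoff y (halne y hy)]
  · rw [hbuM]
    congr 4
    unfold MM mx
    refine Finset.sum_congr rfl fun x hx => ?_
    rw [ek', ek, hκoff x (halne x hx)]
    congr 1
    refine Finset.sum_congr rfl fun y hy => ?_
    rw [hdiff, hκoff y (halne y hy)]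

end Pool.Agent.ATT.H92
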